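import Pool.Agent.W2helper89.MC.Stm

/-!
# MC: the pieces DOWN and GRAPH
-/

set_option autoImplicit false
set_option linter.unusedSectionVars false

universe u

namespace Pool.Agent.W2helper71.MC

open Pool.Agent.Helper743 (TR RecT join)
open Pool.Agent.Helper743
open Pool.Agent.Helper425.PA
open Pool.Agent.W2helper89.MC

variable {O : Set (ℕ →. ℕ)}

open Classical in
/-- the property `P` is decidable in `O` -/
def Dec (O : Set (ℕ →. ℕ)) (P : ℕ → Prop) : Prop := RecT O (fun n => if P n then 1 else 0)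

lemma rid : RecT O (fun n => n) := Computable.recT Computable.id

lemma rconst (k : ℕ) : RecT O (fun _ => k) := Computable.recT (Computable.const k)

lemma rc {f g : ℕ → ℕ} (hf : Computable f) (hg : RecT O g) : RecT O (fun n => f (g n)) :=
  (Computable.recT (O := O) hf).comp hg

lemma ru1 {g : ℕ → ℕ} (hg : RecT O g) : RecT O (fun n => (g n).unpair.1) :=
  rc (Computable.fst.comp Computable.unpair) hg

lemma ru2 {g : ℕ → ℕ} (hg : RecT O g) : RecT O (fun n => (g n).unpair.2) :=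
  rc (Computable.snd.comp Computable.unpair) hg

lemma Dec.comp {P : ℕ → Prop} (h : Dec O P) {g : ℕ → ℕ} (hg : RecT O g) :
    Dec O (fun n => P (g n)) := RecT.comp h hg

lemma Dec.congr {P Q : ℕ → Prop} (h : Dec O P) (hPQ : ∀ n, Q n ↔ P n) : Dec O Q := by
  have : Q = P := funext fun n => propext (hPQ n)
  rw [this]
  exact h

open Classical in
lemma Dec.ite {P : ℕ → Prop} (h : Dec O P) {f g : ℕ → ℕ} (hf : RecT O f) (hg : RecT O g) :
    RecT O (fun n => if P n then f n else g n) := by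
  have h1 := Pool.Agent.H246.RecT.ite_eq h hf hg 1
  refine Nat.RecursiveIn.of_eq h1 fun n => ?_
  congr 1
  by_cases hn : P n <;> simp [hn]

lemma Dec.and {P Q : ℕ → Prop} (hP : Dec O P) (hQ : Dec O Q) : Dec O (fun n => P n ∧ Q n) := by
  refine Nat.RecursiveIn.of_eq (hP.ite hQ (rconst 0)) fun n => ?_
  congr 1
  by_cases h1 : P n <;> by_cases h2 : Q n <;> simp [h1, h2]

lemma Dec.or {P Q : ℕ → Prop} (hP : Dec O P) (hQ : Dec O Q) : Dec O (fun n => P n ∨ Q n) := by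
  refine Nat.RecursiveIn.of_eq (hP.ite (rconst 1) hQ) fun n => ?_
  congr 1
  by_cases h1 : P n <;> by_cases h2 : Q n <;> simp [h1, h2]

lemma Dec.eq {f : ℕ → ℕ} (hf : RecT O f) (c : ℕ) : Dec O (fun n => f n = c) := by
  refine Nat.RecursiveIn.of_eq (Pool.Agent.H246.RecT.ite_eq hf (rconst 1) (rconst 0) c) fun n => ?_
  congr 1
  by_cases h : f n = c <;> simp [h]

/-- search for a certificate -/
lemma search' {C : ℕ → ℕ → Prop} (hC : Dec O (fun z => C z.unpair.1 z.unpair.2))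
    (hex : ∀ a, ∃ n, C a n) : ∃ f : ℕ → ℕ, RecT O f ∧ ∀ a, C a (f a) := by
  classical
  have h1 := hC.ite (rconst (O := O) 0) (rconst 1)
  have hex' : ∀ a, ∃ n, (fun z : ℕ => if C z.unpair.1 z.unpair.2 then 0 else 1) (Nat.pair a n) =
      0 := by
    intro a
    obtain ⟨n, hn⟩ := hex a
    exact ⟨n, by simp [hn]⟩
  refine ⟨_, RecT.find h1 hex', fun a => ?_⟩
  have := Nat.find_spec (hex' a)
  simpa using this

/-- search for a certificate -/
lemma search {f : ℕ → ℕ} {C : ℕ → ℕ → Prop} (hC : Dec O (fun z => C z.unpair.1 z.unpair.2))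
    (hex : ∀ a, ∃ n, C a n) {val : ℕ → ℕ} (hval : RecT O val) (h : ∀ a n, C a n → val n = f a) :
    RecT O f := by
  obtain ⟨g, hg, hg2⟩ := search' hC hex
  refine Nat.RecursiveIn.of_eq (hval.comp hg) fun a => ?_
  congr 1
  exact h a _ (hg2 a)

lemma list4 {g0 g1 g2 g3 : ℕ → ℕ} (h0 : RecT O g0) (h1 : RecT O g1) (h2 : RecT O g2)
    (h3 : RecT O g3) : RecT O (fun z => Encodable.encode [g0 z, g1 z, g2 z, g3 z]) := by
  have hc : Computable (fun z : ℕ => Encodable.encode [z.unpair.1.unpair.1, z.unpair.1.unpair.2,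
      z.unpair.2.unpair.1, z.unpair.2.unpair.2]) := by
    have u1 : Primrec (fun z : ℕ => z.unpair.1) := Primrec.fst.comp Primrec.unpair
    have u2 : Primrec (fun z : ℕ => z.unpair.2) := Primrec.snd.comp Primrec.unpair
    have : Primrec (fun z : ℕ => ([z.unpair.1.unpair.1, z.unpair.1.unpair.2,
        z.unpair.2.unpair.1, z.unpair.2.unpair.2] : List ℕ)) :=
      Primrec.list_cons.comp (u1.comp u1) (Primrec.list_cons.comp (u2.comp u1)
        (Primrec.list_cons.comp (u1.comp u2) (Primrec.list_cons.comp (u2.comp u2)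
          (Primrec.const []))))
    exact (Primrec.encode.comp this).to_comp
  have h4 := rc hc (RecT.pair (RecT.pair h0 h1) (RecT.pair h2 h3))
  refine Nat.RecursiveIn.of_eq h4 fun z => ?_
  simp

section

variable {M : Type u} [CommSemiring M] [LinearOrder M]

lemma asg_encode (x : ℕ → M) (l : List ℕ) (i : ℕ) :
    asg x (Encodable.encode l) i = x (l.getD i 0) := by
  unfold asg
  rw [Encodable.encodek, Option.getD_some]

lemma rel4 {x : ℕ → M} {e : ℕ → ℕ} (hF : Full x e) (he : RecT O e) {R : M → M → M → M → Prop}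
    (hR : Arith (fun v : ℕ → M => R (v 0) (v 1) (v 2) (v 3))) {g0 g1 g2 g3 : ℕ → ℕ}
    (h0 : RecT O g0) (h1 : RecT O g1) (h2 : RecT O g2) (h3 : RecT O g3) :
    Dec O (fun z => R (x (g0 z)) (x (g1 z)) (x (g2 z)) (x (g3 z))) := by
  have h4 : Dec O (fun k => R (asg x k 0) (asg x k 1) (asg x k 2) (asg x k 3)) :=
    TR.of_recT (hF _ hR) he
  refine (h4.comp (list4 h0 h1 h2 h3)).congr fun z => ?_
  rw [asg_encode, asg_encode, asg_encode, asg_encode]
  rfl

lemma sh_even (x : ℕ → M) (B : Set M) (h : ℕ) : sh x B (2 * h) = 1 ↔ El (x h) ⊆ B := by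
  unfold sh
  rw [if_pos (even_two_mul h), show 2 * h / 2 = h by omega]
  split_ifs with h1
  · simp [h1]
  · simp [h1]

lemma sh_odd (x : ℕ → M) (B : Set M) (h : ℕ) : sh x B (2 * h + 1) = 1 ↔ El (x h) ⊆ Bᶜ := by
  unfold sh
  rw [if_neg (by simp), show (2 * h + 1) / 2 = h by omega]
  split_ifs with h1
  · simp [h1]
  · simp [h1]

/-- the question about the oracle is decidable -/
lemma dec_sh {x : ℕ → M} {B : Set M} (hB : RecT O (sh x B)) {g0 g1 : ℕ → ℕ} (h0 : RecT O g0)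
    (h1 : RecT O g1) : Dec O (fun z => El (x (g0 z)) ⊆ B ∧ El (x (g1 z)) ⊆ Bᶜ) := by
  have c1 : Computable (fun n : ℕ => 2 * n) :=
    (Primrec.nat_mul.comp (Primrec.const 2) Primrec.id).to_comp
  have c2 : Computable (fun n : ℕ => 2 * n + 1) :=
    (Primrec.succ.comp (Primrec.nat_mul.comp (Primrec.const 2) Primrec.id)).to_comp
  refine (Dec.and (Dec.eq (hB.comp (rc c1 h0)) 1) (Dec.eq (hB.comp (rc c2 h1)) 1)).congr
    fun z => ?_
  rw [sh_even, sh_odd]

end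

section

variable {M : Type u} [CommSemiring M] [LinearOrder M] [PeanoModel M]

theorem p_down : P_DOWN.{u} := by
  intro M _ _ _ x hx e hF A B hAB
  obtain ⟨W, hW, hAB⟩ := hAB
  have hB : RecT {((join (sh x B) e : ℕ → ℕ) : ℕ →. ℕ)} (sh x B) := TR_join_left _ _
  have he : RecT {((join (sh x B) e : ℕ → ℕ) : ℕ →. ℕ)} e := TR_join_right _ _
  let I : M → M → Prop := fun a b => ∃ y, Mem y a ∧ Mem y b
  have hI : Arith (fun v : ℕ → M => I (v 0) (v 1)) :=
    Arith.ex' (R := fun y v => Mem y (v 0) ∧ Mem y (v 1))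
      (Arith.and (Arith.mem (Tm.var 0) (Tm.var 1)) (Arith.mem (Tm.var 0) (Tm.var 2)))
  -- the four relations
  have hW1 : Arith (fun v : ℕ → M => W (v 0) 1 (v 2) (v 3)) :=
    (Sigma1.arith hW).subst (σ := fun i => match i with
      | 0 => fun v => v 0
      | 1 => fun _ => 1
      | (i + 2) => fun v => v (i + 2)) (fun i => match i with
      | 0 => Tm.var 0
      | 1 => Tm.const 1
      | (i + 2) => Tm.var (i + 2))
  have hW0 : Arith (fun v : ℕ → M => W (v 0) 0 (v 2) (v 3)) :=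
    (Sigma1.arith hW).subst (σ := fun i => match i with
      | 0 => fun v => v 0
      | 1 => fun _ => 0
      | (i + 2) => fun v => v (i + 2)) (fun i => match i with
      | 0 => Tm.var 0
      | 1 => Tm.const 0
      | (i + 2) => Tm.var (i + 2))
  have hV1 : Arith (fun v : ℕ → M => I (v 0) (v 1) ∧ W (v 1) 1 (v 2) (v 3)) :=
    hI.and ((Sigma1.arith hW).subst (σ := fun i => match i with
      | 0 => fun v => v 1
      | 1 => fun _ => 1
      | (i + 2) => fun v => v (i + 2)) (fun i => match i with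
      | 0 => Tm.var 1
      | 1 => Tm.const 1
      | (i + 2) => Tm.var (i + 2)))
  have hV0 : Arith (fun v : ℕ → M => I (v 0) (v 1) ∧ W (v 1) 0 (v 2) (v 3)) :=
    hI.and ((Sigma1.arith hW).subst (σ := fun i => match i with
      | 0 => fun v => v 1
      | 1 => fun _ => 0
      | (i + 2) => fun v => v (i + 2)) (fun i => match i with
      | 0 => Tm.var 1
      | 1 => Tm.const 0
      | (i + 2) => Tm.var (i + 2)))
  -- the certificates
  let C : ℕ → ℕ → Prop := fun k w =>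
    (El (x w.unpair.2.unpair.1) ⊆ B ∧ El (x w.unpair.2.unpair.2) ⊆ Bᶜ) ∧
    (((k % 2 = 0 ∧ w.unpair.1.unpair.1 = 1) ∧
        W (x (k / 2)) 1 (x w.unpair.2.unpair.1) (x w.unpair.2.unpair.2)) ∨
      ((k % 2 = 0 ∧ w.unpair.1.unpair.1 = 0) ∧ I (x (k / 2)) (x w.unpair.1.unpair.2) ∧
        W (x w.unpair.1.unpair.2) 0 (x w.unpair.2.unpair.1) (x w.unpair.2.unpair.2)) ∨
      ((k % 2 = 1 ∧ w.unpair.1.unpair.1 = 1) ∧
        W (x (k / 2)) 0 (x w.unpair.2.unpair.1) (x w.unpair.2.unpair.2)) ∨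
      ((k % 2 = 1 ∧ w.unpair.1.unpair.1 = 0) ∧ I (x (k / 2)) (x w.unpair.1.unpair.2) ∧
        W (x w.unpair.1.unpair.2) 1 (x w.unpair.2.unpair.1) (x w.unpair.2.unpair.2)))
  have hk : RecT {((join (sh x B) e : ℕ → ℕ) : ℕ →. ℕ)} (fun z => z.unpair.1 / 2) :=
    rc (f := fun n => n / 2) ((Primrec.nat_div.comp Primrec.id (Primrec.const 2)).to_comp)
      (ru1 rid)
  have hm : RecT {((join (sh x B) e : ℕ → ℕ) : ℕ →. ℕ)} (fun z => z.unpair.1 % 2) :=
    rc (f := fun n => n % 2) ((Primrec.nat_mod.comp Primrec.id (Primrec.const 2)).to_comp)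
      (ru1 rid)
  have hb : RecT {((join (sh x B) e : ℕ → ℕ) : ℕ →. ℕ)} (fun z => z.unpair.2.unpair.1.unpair.1) :=
    ru1 (ru1 (ru2 rid))
  have hj : RecT {((join (sh x B) e : ℕ → ℕ) : ℕ →. ℕ)} (fun z => z.unpair.2.unpair.1.unpair.2) :=
    ru2 (ru1 (ru2 rid))
  have h0 : RecT {((join (sh x B) e : ℕ → ℕ) : ℕ →. ℕ)} (fun z => z.unpair.2.unpair.2.unpair.1) :=
    ru1 (ru2 (ru2 rid))
  have h1 : RecT {((join (sh x B) e : ℕ → ℕ) : ℕ →. ℕ)} (fun z => z.unpair.2.unpair.2.unpair.2) :=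
    ru2 (ru2 (ru2 rid))
  have hC : Dec {((join (sh x B) e : ℕ → ℕ) : ℕ →. ℕ)} (fun z => C z.unpair.1 z.unpair.2) := by
    refine (dec_sh hB h0 h1).and ?_
    refine (((Dec.eq hm 0).and (Dec.eq hb 1)).and (rel4 (R := fun a _ c d => W a 1 c d) hF he hW1 hk hj h0 h1)).or ?_
    refine (((Dec.eq hm 0).and (Dec.eq hb 0)).and
      (rel4 (R := fun a b c d => I a b ∧ W b 0 c d) hF he hV0 hk hj h0 h1)).or ?_
    refine (((Dec.eq hm 1).and (Dec.eq hb 1)).and (rel4 (R := fun a _ c d => W a 0 c d) hF he hW0 hk hj h0 h1)).or ?_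
    exact ((Dec.eq hm 1).and (Dec.eq hb 0)).and
      (rel4 (R := fun a b c d => I a b ∧ W b 1 c d) hF he hV1 hk hj h0 h1)
  refine search (f := sh x A) (C := C) hC ?_ (val := fun w => w.unpair.1.unpair.1)
    (ru1 (ru1 rid)) ?_
  · intro k
    rcases Nat.mod_two_eq_zero_or_one k with hk2 | hk2
    · by_cases hA : El (x (k / 2)) ⊆ A
      · obtain ⟨H₀, H₁, k1, k2, k3⟩ := (hAB _).1.1 hA
        obtain ⟨a, rfl⟩ := hx H₀
        obtain ⟨b, rfl⟩ := hx H₁
        refine ⟨Nat.pair (Nat.pair 1 0) (Nat.pair a b), ?_, Or.inl ⟨⟨hk2, ?_⟩, ?_⟩⟩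
        · simp only [Nat.unpair_pair]
          exact ⟨k1, k2⟩
        · simp only [Nat.unpair_pair]
        · simp only [Nat.unpair_pair]
          exact k3
      · obtain ⟨y, hy1, hy2⟩ := Set.not_subset.1 hA
        obtain ⟨m, hm'⟩ := exists_code_single y
        have hmA : El m ⊆ Aᶜ := by
          intro z hz
          rw [(hm' z).1 hz]
          exact hy2
        obtain ⟨H₀, H₁, k1, k2, k3⟩ := (hAB _).2.1 hmA
        obtain ⟨a, rfl⟩ := hx H₀
        obtain ⟨b, rfl⟩ := hx H₁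
        obtain ⟨j, rfl⟩ := hx m
        refine ⟨Nat.pair (Nat.pair 0 j) (Nat.pair a b), ?_, Or.inr (Or.inl ⟨⟨hk2, ?_⟩, ?_, ?_⟩)⟩
        · simp only [Nat.unpair_pair]
          exact ⟨k1, k2⟩
        · simp only [Nat.unpair_pair]
        · simp only [Nat.unpair_pair]
          exact ⟨y, hy1, (hm' y).2 rfl⟩
        · simp only [Nat.unpair_pair]
          exact k3
    · by_cases hA : El (x (k / 2)) ⊆ Aᶜ
      · obtain ⟨H₀, H₁, k1, k2, k3⟩ := (hAB _).2.1 hA
        obtain ⟨a, rfl⟩ := hx H₀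
        obtain ⟨b, rfl⟩ := hx H₁
        refine ⟨Nat.pair (Nat.pair 1 0) (Nat.pair a b), ?_,
          Or.inr (Or.inr (Or.inl ⟨⟨hk2, ?_⟩, ?_⟩))⟩
        · simp only [Nat.unpair_pair]
          exact ⟨k1, k2⟩
        · simp only [Nat.unpair_pair]
        · simp only [Nat.unpair_pair]
          exact k3
      · obtain ⟨y, hy1, hy2⟩ := Set.not_subset.1 hA
        obtain ⟨m, hm'⟩ := exists_code_single y
        have hmA : El m ⊆ A := by
          intro z hz
          rw [(hm' z).1 hz]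
          exact not_not.1 hy2
        obtain ⟨H₀, H₁, k1, k2, k3⟩ := (hAB _).1.1 hmA
        obtain ⟨a, rfl⟩ := hx H₀
        obtain ⟨b, rfl⟩ := hx H₁
        obtain ⟨j, rfl⟩ := hx m
        refine ⟨Nat.pair (Nat.pair 0 j) (Nat.pair a b), ?_,
          Or.inr (Or.inr (Or.inr ⟨⟨hk2, ?_⟩, ?_, ?_⟩))⟩
        · simp only [Nat.unpair_pair]
          exact ⟨k1, k2⟩
        · simp only [Nat.unpair_pair]
        · simp only [Nat.unpair_pair]
          exact ⟨y, hy1, (hm' y).2 rfl⟩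
        · simp only [Nat.unpair_pair]
          exact k3
  · rintro k w ⟨⟨b1, b2⟩, h⟩
    have hev : ∀ {k : ℕ}, k % 2 = 0 → Even k := fun h => Nat.even_iff.2 h
    have hod : ∀ {k : ℕ}, k % 2 = 1 → ¬ Even k := fun h => by rw [Nat.even_iff]; omega
    rcases h with ⟨⟨m1, m2⟩, m3⟩ | ⟨⟨m1, m2⟩, ⟨y, y1, y2⟩, m3⟩ | ⟨⟨m1, m2⟩, m3⟩ |
      ⟨⟨m1, m2⟩, ⟨y, y1, y2⟩, m3⟩
    · rw [m2, sh, if_pos (hev m1), if_pos ((hAB _).1.2 ⟨_, _, b1, b2, m3⟩)]
    · have h3 := (hAB _).2.2 ⟨_, _, b1, b2, m3⟩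
      rw [m2, sh, if_pos (hev m1), if_neg fun h4 => h3 y2 (h4 y1)]
    · rw [m2, sh, if_neg (hod m1), if_pos ((hAB _).2.2 ⟨_, _, b1, b2, m3⟩)]
    · have h3 := (hAB _).1.2 ⟨_, _, b1, b2, m3⟩
      rw [m2, sh, if_neg (hod m1), if_neg fun h4 => (h4 y1) (h3 y2)]

/-- the indices of the standard numbers -/
lemma exists_index {x : ℕ → M} (hx : Function.Surjective x) {e : ℕ → ℕ} (hF : Full x e) :
    ∃ ix : ℕ → ℕ, RecT {(e : ℕ →. ℕ)} ix ∧ ∀ n, x (ix n) = (n : M) := by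
  have he : RecT {(e : ℕ →. ℕ)} e := TR.refl e
  obtain ⟨i0, hi0⟩ := hx 0
  have hR : Arith (fun v : ℕ → M => v 1 = v 0 + 1) :=
    Arith.eq (Tm.var 1) (Tm.add (Tm.var 0) (Tm.const 1))
  obtain ⟨s, hs, hs2⟩ := search' (C := fun a b => x b = x a + 1)
    (rel4 (R := fun a b _ _ => b = a + 1) hF he hR (ru1 rid) (ru2 rid) (rconst 0) (rconst 0))
    (fun a => hx (x a + 1))
  have h4 : RecT {(e : ℕ →. ℕ)} (fun z => s z.unpair.2.unpair.2) := hs.comp (ru2 (ru2 rid))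
  have h5 := (RecT.prec (rconst (O := {(e : ℕ →. ℕ)}) i0) h4).comp
    (RecT.pair (rconst (O := {(e : ℕ →. ℕ)}) 0) rid)
  refine ⟨_, h5, fun n => ?_⟩
  simp only [Nat.unpair_pair]
  induction n with
  | zero => simpa using hi0
  | succ n ih =>
    simp only
    rw [hs2, ih]
    push_cast
    rfl

theorem p_graph : P_GRAPH.{u} := by
  intro M _ _ _ x hx e hF B f hf
  obtain ⟨W, hW, hG⟩ := hf
  have hB : RecT {((join (sh x B) e : ℕ → ℕ) : ℕ →. ℕ)} (sh x B) := TR_join_left _ _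
  have he : RecT {((join (sh x B) e : ℕ → ℕ) : ℕ →. ℕ)} e := TR_join_right _ _
  obtain ⟨ix, hix, hix2⟩ := exists_index hx hF
  have hix' : RecT {((join (sh x B) e : ℕ → ℕ) : ℕ →. ℕ)} ix := TR.of_recT hix he
  have hR : Arith (fun v : ℕ → M => W (pr (v 0) (v 1)) (v 2) (v 3)) :=
    (Sigma1.arith hW).subst (σ := fun i => match i with
      | 0 => fun v => pr (v 0) (v 1)
      | (i + 1) => fun v => v (i + 2)) (fun i => match i with
      | 0 => Tm.pr (Tm.var 0) (Tm.var 1)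
      | (i + 1) => Tm.var (i + 2))
  let C : ℕ → ℕ → Prop := fun k w =>
    (El (x w.unpair.2.unpair.1) ⊆ B ∧ El (x w.unpair.2.unpair.2) ⊆ Bᶜ) ∧
    W (pr (x (ix k)) (x (ix w.unpair.1))) (x w.unpair.2.unpair.1) (x w.unpair.2.unpair.2)
  have hk : RecT {((join (sh x B) e : ℕ → ℕ) : ℕ →. ℕ)} (fun z => ix z.unpair.1) :=
    hix'.comp (ru1 rid)
  have hj : RecT {((join (sh x B) e : ℕ → ℕ) : ℕ →. ℕ)} (fun z => ix z.unpair.2.unpair.1) :=
    hix'.comp (ru1 (ru2 rid))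
  have h0 : RecT {((join (sh x B) e : ℕ → ℕ) : ℕ →. ℕ)} (fun z => z.unpair.2.unpair.2.unpair.1) :=
    ru1 (ru2 (ru2 rid))
  have h1 : RecT {((join (sh x B) e : ℕ → ℕ) : ℕ →. ℕ)} (fun z => z.unpair.2.unpair.2.unpair.2) :=
    ru2 (ru2 (ru2 rid))
  have hC : Dec {((join (sh x B) e : ℕ → ℕ) : ℕ →. ℕ)} (fun z => C z.unpair.1 z.unpair.2) :=
    (dec_sh hB h0 h1).and
      (rel4 (R := fun a b c d => W (pr a b) c d) hF he hR hk hj h0 h1)
  refine search (f := f) (C := C) hC ?_ (val := fun w => w.unpair.1) (ru1 rid) ?_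
  · intro k
    obtain ⟨H₀, H₁, k1, k2, k3⟩ := (hG _).1 (show pr (k : M) (f k : M) ∈ Gr M f from ⟨k, rfl⟩)
    obtain ⟨a, rfl⟩ := hx H₀
    obtain ⟨b, rfl⟩ := hx H₁
    refine ⟨Nat.pair (f k) (Nat.pair a b), ?_, ?_⟩
    · simp only [Nat.unpair_pair]
      exact ⟨k1, k2⟩
    · simp only [Nat.unpair_pair, hix2]
      exact k3
  · rintro k w ⟨⟨b1, b2⟩, h⟩
    rw [hix2, hix2] at h
    obtain ⟨n, hn⟩ := (hG _).2 ⟨_, _, b1, b2, h⟩
    obtain ⟨h3, h4⟩ := pr_inj hn
    have h5 : k = n := Nat.cast_injective h3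
    have h6 : w.unpair.1 = f n := Nat.cast_injective h4
    rw [h5]
    exact h6

end

end Pool.Agent.W2helper71.MC
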